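import Mathlib

/-!
The augmentation ideal of a free group algebra is free on the elements `x - 1`, on both sides.
-/

namespace Pool.Agent.MP_6883a6_al.H25

open MonoidAlgebra

variable {K : Type*} [Field K] {G : Type*} [Group G] {ι : Type*}

variable (K) in
/-- the element `g - 1` -/
noncomputable def gm (g : G) : MonoidAlgebra K G := of K G g - 1

variable (K G) in
/-- the augmentation -/
noncomputable def aug : MonoidAlgebra K G →ₐ[K] K := MonoidAlgebra.lift K K G 1

@[simp] theorem aug_of (g : G) : aug K G (of K G g) = 1 := by simp [aug]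

@[simp] theorem aug_gm (g : G) : aug K G (gm K g) = 0 := by
  rw [gm, map_sub, aug_of, map_one, sub_self]

theorem basis_induction (b : FreeGroupBasis ι G) {P : G → Prop} (h1 : P 1) (hb : ∀ i, P (b i))
    (hinv : ∀ i, P (b i)⁻¹) (hmul : ∀ x y, P x → P y → P (x * y)) (g : G) : P g := by
  obtain ⟨w, rfl⟩ := b.repr.symm.surjective g
  induction w using FreeGroup.induction_on with
  | C1 => simpa using h1
  | of x => exact hb x
  | inv_of x _ => rw [map_inv]; exact hinv x
  | mul x y hx hy => rw [map_mul]; exact hmul _ _ hx hy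

theorem lift_basis {H : Type*} [Group H] (b : FreeGroupBasis ι G) (f : ι → H) (i : ι) :
    b.lift f (b i) = f i := by
  simp [FreeGroupBasis.lift]

theorem of_mul_of_inv (g : G) : of K G g * of K G g⁻¹ = 1 := by
  rw [← map_mul, mul_inv_cancel, map_one]

theorem of_inv_mul_of (g : G) : of K G g⁻¹ * of K G g = 1 := by
  rw [← map_mul, inv_mul_cancel, map_one]

/-- unit matrices for the right Fox calculus -/
noncomputable def uR (g : G) (c : MonoidAlgebra K G) :
    (Matrix (Fin 2) (Fin 2) (MonoidAlgebra K G))ˣ where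
  val := !![1, c; 0, of K G g]
  inv := !![1, -(c * of K G g⁻¹); 0, of K G g⁻¹]
  val_inv := by
    rw [Matrix.mul_fin_two, Matrix.one_fin_two, of_mul_of_inv]; simp
  inv_val := by
    rw [Matrix.mul_fin_two, Matrix.one_fin_two, of_inv_mul_of, neg_mul _ (of K G g), mul_assoc,
      of_inv_mul_of]
    simp

/-- unit matrices for the left Fox calculus -/
noncomputable def uL (g : G) (c : MonoidAlgebra K G) :
    (Matrix (Fin 2) (Fin 2) (MonoidAlgebra K G))ˣ where
  val := !![of K G g, c; 0, 1]
  inv := !![of K G g⁻¹, -(of K G g⁻¹ * c); 0, 1]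
  val_inv := by
    rw [Matrix.mul_fin_two, Matrix.one_fin_two, of_mul_of_inv, mul_neg, ← mul_assoc, of_mul_of_inv]
    simp
  inv_val := by
    rw [Matrix.mul_fin_two, Matrix.one_fin_two, of_inv_mul_of]; simp

theorem right_indep [Fintype ι] (b : FreeGroupBasis ι G) (p : ι → MonoidAlgebra K G)
    (h : ∑ j, gm K (b j) * p j = 0) (i : ι) : p i = 0 := by
  classical
  let φ : G →* (Matrix (Fin 2) (Fin 2) (MonoidAlgebra K G))ˣ :=
    b.lift fun j => uR (b j) (if j = i then 1 else 0)
  let Φ : MonoidAlgebra K G →ₐ[K] Matrix (Fin 2) (Fin 2) (MonoidAlgebra K G) :=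
    MonoidAlgebra.lift K _ G ((Units.coeHom _).comp φ)
  have hφ : ∀ g, (φ g).val 1 0 = 0 ∧ (φ g).val 1 1 = of K G g := by
    intro g
    induction g using basis_induction b with
    | h1 => simp [one_def]
    | hb j => simp only [φ, lift_basis]; simp [uR]
    | hinv j => rw [map_inv]; simp only [φ, lift_basis]; simp [uR]
    | hmul x y hx hy =>
      rw [map_mul, Units.val_mul, map_mul]
      simp only [Matrix.mul_apply, Fin.sum_univ_two, hx.1, hx.2, hy.1, hy.2]
      simp
  have hΦ : ∀ u, Φ u 1 1 = u := by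
    intro u
    induction u using MonoidAlgebra.induction_on with
    | of g => simpa [Φ] using (hφ g).2
    | add x y hx hy => rw [map_add, Matrix.add_apply, hx, hy]
    | smul r x hx => rw [map_smul, Matrix.smul_apply, hx]
  have hg : ∀ j, Φ (gm K (b j)) 0 0 = 0 ∧ Φ (gm K (b j)) 0 1 = if j = i then 1 else 0 := by
    intro j
    have : Φ (of K G (b j)) = (uR (b j) (if j = i then 1 else 0)).val := by
      simp only [Φ, lift_of, MonoidHom.comp_apply, φ, lift_basis]; rfl
    rw [gm, map_sub, this, map_one]
    simp [uR]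
  have := congrArg (fun u => Φ u 0 1) h
  simp only [map_sum, map_mul, Matrix.sum_apply, Matrix.mul_apply, Fin.sum_univ_two, (hg _).1,
    (hg _).2, hΦ, map_zero, Matrix.zero_apply] at this
  simpa using this

theorem left_indep [Fintype ι] (b : FreeGroupBasis ι G) (p : ι → MonoidAlgebra K G)
    (h : ∑ j, p j * gm K (b j) = 0) (i : ι) : p i = 0 := by
  classical
  let φ : G →* (Matrix (Fin 2) (Fin 2) (MonoidAlgebra K G))ˣ :=
    b.lift fun j => uL (b j) (if j = i then 1 else 0)
  let Φ : MonoidAlgebra K G →ₐ[K] Matrix (Fin 2) (Fin 2) (MonoidAlgebra K G) :=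
    MonoidAlgebra.lift K _ G ((Units.coeHom _).comp φ)
  have hφ : ∀ g, (φ g).val 1 0 = 0 ∧ (φ g).val 0 0 = of K G g := by
    intro g
    induction g using basis_induction b with
    | h1 => simp [one_def]
    | hb j => simp only [φ, lift_basis]; simp [uL]
    | hinv j => rw [map_inv]; simp only [φ, lift_basis]; simp [uL]
    | hmul x y hx hy =>
      rw [map_mul, Units.val_mul, map_mul]
      simp only [Matrix.mul_apply, Fin.sum_univ_two, hx.1, hx.2, hy.1, hy.2]
      simp
  have hΦ : ∀ u, Φ u 0 0 = u := by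
    intro u
    induction u using MonoidAlgebra.induction_on with
    | of g => simpa [Φ] using (hφ g).2
    | add x y hx hy => rw [map_add, Matrix.add_apply, hx, hy]
    | smul r x hx => rw [map_smul, Matrix.smul_apply, hx]
  have hg : ∀ j, Φ (gm K (b j)) 1 1 = 0 ∧ Φ (gm K (b j)) 0 1 = if j = i then 1 else 0 := by
    intro j
    have : Φ (of K G (b j)) = (uL (b j) (if j = i then 1 else 0)).val := by
      simp only [Φ, lift_of, MonoidHom.comp_apply, φ, lift_basis]; rfl
    rw [gm, map_sub, this, map_one]
    simp [uL]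
  have := congrArg (fun u => Φ u 0 1) h
  simp only [map_sum, map_mul, Matrix.sum_apply, Matrix.mul_apply, Fin.sum_univ_two, (hg _).1,
    (hg _).2, hΦ, map_zero, Matrix.zero_apply] at this
  simpa using this

theorem gm_mul (x y : G) : gm K (x * y) = gm K x * of K G y + gm K y := by
  simp only [gm, map_mul]; noncomm_ring

theorem gm_inv (x : G) : gm K x⁻¹ = gm K x * (-of K G x⁻¹) := by
  simp only [gm, sub_mul, mul_neg, of_mul_of_inv, one_mul]; abel

theorem exists_of_aug [Fintype ι] (b : FreeGroupBasis ι G) (v : MonoidAlgebra K G)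
    (hv : aug K G v = 0) : ∃ p : ι → MonoidAlgebra K G, v = ∑ j, gm K (b j) * p j := by
  classical
  have hg : ∀ g : G, ∃ p : ι → MonoidAlgebra K G, gm K g = ∑ j, gm K (b j) * p j := by
    intro g
    induction g using basis_induction b with
    | h1 => exact ⟨0, by simp [gm, one_def]⟩
    | hb j => exact ⟨Pi.single j 1, by simp [Pi.single_apply]⟩
    | hinv j => exact ⟨Pi.single j (-of K G (b j)⁻¹), by
        rw [gm_inv]; simp [Pi.single_apply]⟩
    | hmul x y hx hy =>
      obtain ⟨p, hp⟩ := hx
      obtain ⟨q, hq⟩ := hy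
      refine ⟨fun j => p j * of K G y + q j, ?_⟩
      rw [gm_mul, hp, hq, Finset.sum_mul, ← Finset.sum_add_distrib]
      simp only [mul_add, mul_assoc]
  have : ∀ u : MonoidAlgebra K G, ∃ p : ι → MonoidAlgebra K G,
      u - algebraMap K _ (aug K G u) = ∑ j, gm K (b j) * p j := by
    intro u
    induction u using MonoidAlgebra.induction_on with
    | of g => rw [aug_of, map_one]; exact hg g
    | add x y hx hy =>
      obtain ⟨p, hp⟩ := hx
      obtain ⟨q, hq⟩ := hy
      refine ⟨fun j => p j + q j, ?_⟩
      simp only [mul_add, Finset.sum_add_distrib, ← hp, ← hq, map_add]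
      abel
    | smul r x hx =>
      obtain ⟨p, hp⟩ := hx
      refine ⟨fun j => r • p j, ?_⟩
      simp only [mul_smul_comm, ← Finset.smul_sum, ← hp, map_smul, smul_sub, smul_eq_mul,
        map_mul]
      rw [Algebra.smul_def r (algebraMap K _ (aug K G x))]
  simpa [hv] using this v

end Pool.Agent.MP_6883a6_al.H25
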