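import Mathlib
import Pool.Agent.MP_6883a6_al.H25.Fox

/-!
The submodule of `K[G]^4` generated by a column `(α, β, 0, 0)` and two copies of the augmentation ideal.
-/

namespace Pool.Agent.MP_6883a6_al.H25

open MonoidAlgebra MulOpposite

variable {K : Type*} [Field K] {G : Type*} [Group G] {ι : Type*}

/-- the submodule -/
def Mod (α β : MonoidAlgebra K G) :
    Submodule (MonoidAlgebra K G)ᵐᵒᵖ (Fin 4 → MonoidAlgebra K G) where
  carrier := {v | (∃ u, v 0 = α * u ∧ v 1 = β * u) ∧ aug K G (v 2) = 0 ∧ aug K G (v 3) = 0}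
  zero_mem' := ⟨⟨0, by simp⟩, by simp, by simp⟩
  add_mem' := by
    rintro v w ⟨⟨u, h1, h2⟩, h3, h4⟩ ⟨⟨u', h1', h2'⟩, h3', h4'⟩
    refine ⟨⟨u + u', ?_, ?_⟩, ?_, ?_⟩
    · rw [Pi.add_apply, h1, h1', mul_add]
    · rw [Pi.add_apply, h2, h2', mul_add]
    · rw [Pi.add_apply, map_add, h3, h3', add_zero]
    · rw [Pi.add_apply, map_add, h4, h4', add_zero]
  smul_mem' := by
    rintro c v ⟨⟨u, h1, h2⟩, h3, h4⟩
    refine ⟨⟨u * c.unop, ?_, ?_⟩, ?_, ?_⟩
    · rw [Pi.smul_apply, h1, smul_eq_mul_unop, mul_assoc]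
    · rw [Pi.smul_apply, h2, smul_eq_mul_unop, mul_assoc]
    · rw [Pi.smul_apply, smul_eq_mul_unop, map_mul, h3, zero_mul]
    · rw [Pi.smul_apply, smul_eq_mul_unop, map_mul, h4, zero_mul]

theorem mem_Mod {α β : MonoidAlgebra K G} {v : Fin 4 → MonoidAlgebra K G} :
    v ∈ Mod α β ↔
      (∃ u, v 0 = α * u ∧ v 1 = β * u) ∧ aug K G (v 2) = 0 ∧ aug K G (v 3) = 0 := Iff.rfl

/-- the generators -/
noncomputable def gens (b : ι → G) (α β : MonoidAlgebra K G) :
    Unit ⊕ ι ⊕ ι → Fin 4 → MonoidAlgebra K G :=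
  Sum.elim (fun _ => ![α, β, 0, 0])
    (Sum.elim (fun j => ![0, 0, gm K (b j), 0]) (fun j => ![0, 0, 0, gm K (b j)]))

theorem gens_mem (b : ι → G) (α β : MonoidAlgebra K G) (j : Unit ⊕ ι ⊕ ι) :
    gens b α β j ∈ Mod α β := by
  rcases j with j | j | j
  · exact ⟨⟨1, by simp [gens]⟩, by simp [gens], by simp [gens]⟩
  · exact ⟨⟨0, by simp [gens]⟩, by simp [gens], by simp [gens]⟩
  · exact ⟨⟨0, by simp [gens]⟩, by simp [gens], by simp [gens]⟩

theorem sum_gens [Fintype ι] (b : ι → G) (α β : MonoidAlgebra K G)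
    (c : Unit ⊕ ι ⊕ ι → (MonoidAlgebra K G)ᵐᵒᵖ) :
    ∑ j, c j • gens b α β j =
      ![α * (c (Sum.inl ())).unop, β * (c (Sum.inl ())).unop,
        ∑ j, gm K (b j) * (c (Sum.inr (Sum.inl j))).unop,
        ∑ j, gm K (b j) * (c (Sum.inr (Sum.inr j))).unop] := by
  funext k
  simp only [Fintype.sum_sum_type, Finset.sum_apply, Pi.smul_apply, gens,
    Sum.elim_inl, Sum.elim_inr, smul_eq_mul_unop, Finset.univ_unique, Finset.sum_singleton]
  fin_cases k <;> simp

theorem gens_indep [Fintype ι] (b : FreeGroupBasis ι G) (α β : MonoidAlgebra K G)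
    (hα : ∀ u, α * u = 0 → u = 0) :
    LinearIndependent (MonoidAlgebra K G)ᵐᵒᵖ (gens b α β) := by
  rw [Fintype.linearIndependent_iff]
  intro c hc j
  rw [sum_gens] at hc
  apply unop_injective
  rcases j with j | j | j
  · exact hα _ (by simpa using congrFun hc 0)
  · exact right_indep b (fun j => (c (Sum.inr (Sum.inl j))).unop)
      (by simpa using congrFun hc 2) j
  · exact right_indep b (fun j => (c (Sum.inr (Sum.inr j))).unop)
      (by simpa using congrFun hc 3) j

theorem span_gens [Fintype ι] (b : FreeGroupBasis ι G) (α β : MonoidAlgebra K G) :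
    Submodule.span (MonoidAlgebra K G)ᵐᵒᵖ (Set.range (gens b α β)) = Mod α β := by
  apply le_antisymm
  · rw [Submodule.span_le]
    rintro _ ⟨j, rfl⟩
    exact gens_mem b α β j
  · rintro v ⟨⟨u, h1, h2⟩, h3, h4⟩
    obtain ⟨p, hp⟩ := exists_of_aug b _ h3
    obtain ⟨q, hq⟩ := exists_of_aug b _ h4
    rw [Submodule.mem_span_range_iff_exists_fun]
    refine ⟨Sum.elim (fun _ => op u) (Sum.elim (fun j => op (p j)) (fun j => op (q j))), ?_⟩
    rw [sum_gens]
    funext k
    fin_cases k
    · simpa using h1.symm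
    · simpa using h2.symm
    · simpa using hp.symm
    · simpa using hq.symm

theorem nonempty_basis {n : ℕ} (b : FreeGroupBasis (Fin n) G) (α β : MonoidAlgebra K G)
    (hα : ∀ u, α * u = 0 → u = 0) :
    Nonempty (Module.Basis (Fin (1 + 2 * n)) (MonoidAlgebra K G)ᵐᵒᵖ (Mod α β)) := by
  rw [← span_gens b]
  refine ⟨(Module.Basis.span (gens_indep b α β hα)).reindex (Fintype.equivFinOfCardEq ?_)⟩
  simp; ring

theorem fg_Mod [Fintype ι] (b : FreeGroupBasis ι G) (α β : MonoidAlgebra K G) :
    (Mod α β).FG := by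
  rw [← span_gens b]
  exact Submodule.fg_span (Set.finite_range _)

theorem gm_cancel [Fintype ι] (b : FreeGroupBasis ι G) (i : ι) (u : MonoidAlgebra K G)
    (h : gm K (b i) * u = 0) : u = 0 := by
  classical
  have := right_indep b (Pi.single i u) (by simpa [Pi.single_apply] using h) i
  simpa using this

theorem gm_cancel' [Fintype ι] (b : FreeGroupBasis ι G) (i : ι) (u : MonoidAlgebra K G)
    (h : u * gm K (b i) = 0) : u = 0 := by
  classical
  have := left_indep b (Pi.single i u) (by simpa [Pi.single_apply] using h) i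
  simpa using this

/-- A submodule killed by no nonzero functional lies in no proper direct summand. -/
theorem eq_top_of_bound {R : Type*} [Ring R] {d : ℕ} (M : Submodule Rᵐᵒᵖ (Fin d → R))
    (hM : ∀ p : Fin d → R, (∀ v ∈ M, ∑ j, p j * v j = 0) → p = 0)
    (N N' : Submodule Rᵐᵒᵖ (Fin d → R)) (h : IsCompl N N') (hle : M ≤ N) : N = ⊤ := by
  classical
  let π : (Fin d → R) →ₗ[Rᵐᵒᵖ] (Fin d → R) := N'.subtype.comp (N'.projectionOnto N h.symm)
  have hπ : ∀ v k, π v k = ∑ j, π (Pi.single j 1) k * v j := by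
    intro v k
    have hv : v = ∑ j, op (v j) • (Pi.single j 1 : Fin d → R) := by
      funext i
      simp [Finset.sum_apply, Pi.single_apply]
    conv_lhs => rw [hv]
    simp [map_sum, Finset.sum_apply]
  have h0 : ∀ k j, π (Pi.single j 1) k = 0 := by
    intro k j
    refine congrFun (hM (fun j => π (Pi.single j 1) k) fun v hv => ?_) j
    rw [← hπ]
    have : N'.projectionOnto N h.symm v = 0 := by
      simpa using Submodule.projectionOnto_apply_right h.symm ⟨v, hle hv⟩
    simp [π, this]
  have hN' : N' = ⊥ := by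
    rw [eq_bot_iff]
    intro v hv
    have h1 : π v = v := by
      have := Submodule.projectionOnto_apply_left h.symm ⟨v, hv⟩
      simp only [π, LinearMap.comp_apply]
      rw [this]; rfl
    rw [Submodule.mem_bot, ← h1]
    funext k
    simp [hπ v k, h0]
  simpa [hN'] using h.sup_eq_top

section Sub

variable (H : Subgroup G)

theorem aug_mapDomain (v : MonoidAlgebra K H) :
    aug K G (mapDomain H.subtype v) = aug K H v := by
  induction v using MonoidAlgebra.induction_on with
  | of g => simp [aug]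
  | add x y hx hy => rw [mapDomain_add, map_add, map_add, hx, hy]
  | smul r x hx => rw [mapDomain_smul, map_smul, map_smul, hx]

theorem mapDomain_gm (g : H) : mapDomain H.subtype (gm K g) = gm K (g : G) := by
  have := map_sub (mapDomainRingHom K H.subtype) (of K H g) 1
  rw [map_one] at this
  simpa [gm] using this

/-- restriction of coefficients to the subgroup -/
noncomputable def res (u : MonoidAlgebra K G) : MonoidAlgebra K H :=
  comapDomain H.subtype H.subtype_injective u

theorem coeff_res (u : MonoidAlgebra K G) (h : H) : (res H u).coeff h = u.coeff h := by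
  simp [res]

theorem res_mul (s : MonoidAlgebra K H) (u : MonoidAlgebra K G) :
    res H (mapDomain H.subtype s * u) = s * res H u := by
  induction s using MonoidAlgebra.induction_on with
  | of g =>
    ext h
    simp [coeff_res]
  | add x y hx hy =>
    rw [mapDomain_add, add_mul, add_mul, ← hx, ← hy, res, comapDomain_add]; rfl
  | smul r x hx =>
    rw [mapDomain_smul, smul_mul_assoc, smul_mul_assoc, ← hx]
    ext h
    simp [coeff_res]

theorem res_mapDomain (s : MonoidAlgebra K H) : res H (mapDomain H.subtype s) = s := by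
  ext h
  rw [coeff_res]
  exact Finsupp.mapDomain_apply H.subtype_injective s.coeff h

theorem mem_Mod_iff (α β : MonoidAlgebra K H) (v : Fin 4 → MonoidAlgebra K H) :
    v ∈ Mod α β ↔ (fun i => mapDomain H.subtype (v i)) ∈
      Mod (mapDomain H.subtype α) (mapDomain H.subtype β) := by
  simp only [mem_Mod, aug_mapDomain]
  refine and_congr_left' ⟨?_, ?_⟩
  · rintro ⟨u, h1, h2⟩
    exact ⟨mapDomain H.subtype u, by rw [h1, mapDomain_mul], by rw [h2, mapDomain_mul]⟩
  · rintro ⟨u, h1, h2⟩
    refine ⟨res H u, ?_, ?_⟩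
    · rw [← res_mul, ← h1, res_mapDomain]
    · rw [← res_mul, ← h2, res_mapDomain]

end Sub

/-- the embedding of the rank three free group as an index two subgroup of the rank two one -/
def emb : FreeGroup (Fin 3) →* FreeGroup (Fin 2) :=
  FreeGroup.lift ![FreeGroup.of 0, (FreeGroup.of 1)⁻¹ * FreeGroup.of 0 * FreeGroup.of 1,
    FreeGroup.of 1 * FreeGroup.of 1]

/-- the permutation for the first generator -/
def permX : Equiv.Perm (FreeGroup (Fin 3) × Bool) where
  toFun p := (FreeGroup.of (if p.2 then 1 else 0) * p.1, p.2)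
  invFun p := ((FreeGroup.of (if p.2 then 1 else 0))⁻¹ * p.1, p.2)
  left_inv p := by simp
  right_inv p := by simp

/-- the permutation for the second generator -/
def permY : Equiv.Perm (FreeGroup (Fin 3) × Bool) where
  toFun p := if p.2 then (FreeGroup.of 2 * p.1, false) else (p.1, true)
  invFun p := if p.2 then (p.1, false) else ((FreeGroup.of 2)⁻¹ * p.1, true)
  left_inv := by rintro ⟨w, _ | _⟩ <;> simp
  right_inv := by rintro ⟨w, _ | _⟩ <;> simp

theorem emb_injective : Function.Injective emb := by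
  let ψ : FreeGroup (Fin 2) →* Equiv.Perm (FreeGroup (Fin 3) × Bool) :=
    FreeGroup.lift ![permX, permY]
  have hof : ∀ (i : Fin 3) (w : FreeGroup (Fin 3)),
      ψ (emb (FreeGroup.of i)) (w, false) = (FreeGroup.of i * w, false) := by
    intro i w
    fin_cases i
    · simp [ψ, emb, permX]
    · simp [ψ, emb, permX, permY, Equiv.Perm.inv_def]
    · simp [ψ, emb, permY]
  have key : ∀ g w : FreeGroup (Fin 3), ψ (emb g) (w, false) = (g * w, false) := by
    intro g
    induction g using FreeGroup.induction_on with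
    | C1 => simp
    | of x => exact hof x
    | inv_of x hx =>
      intro w
      rw [map_inv, map_inv, Equiv.Perm.inv_eq_iff_eq, hx]
      simp
    | mul x y hx hy =>
      intro w
      rw [map_mul, map_mul, Equiv.Perm.mul_apply, hy, hx, mul_assoc]
  rw [injective_iff_map_eq_one]
  intro g hg
  have := key g 1
  rw [hg] at this
  simpa using this.symm

theorem ring_aux {R : Type*} [Ring R] (p q x y z : R) (h : z * y = 1) :
    (p + q * z) * (x - 1) + q * z * (x - 1) * (y - 1) = p * (x - 1) + q * (z * x * y - 1) := by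
  have : q * z * (x - 1) * (y - 1) = q * (z * x * y - z * y) - q * z * (x - 1) := by noncomm_ring
  rw [this, h]
  noncomm_ring

/-- the left independence needed for boundness -/
theorem indep_pair (p q : MonoidAlgebra K (FreeGroup (Fin 2)))
    (h : p * gm K (FreeGroup.of 0) +
      q * gm K ((FreeGroup.of 1)⁻¹ * FreeGroup.of 0 * FreeGroup.of 1) = 0) : p = 0 ∧ q = 0 := by
  set b := FreeGroupBasis.ofFreeGroup (Fin 2)
  let yi := of K (FreeGroup (Fin 2)) (FreeGroup.of 1)⁻¹
  have hy : yi * of K (FreeGroup (Fin 2)) (FreeGroup.of 1) = 1 := of_inv_mul_of _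
  have h2 : ∑ j, (![p + q * yi, q * yi * gm K (FreeGroup.of 0)] : Fin 2 → _) j * gm K (b j) = 0 := by
    rw [← h]
    simp only [Fin.sum_univ_two, Matrix.cons_val_zero, Matrix.cons_val_one, b,
      FreeGroupBasis.ofFreeGroup_apply, gm, map_mul]
    exact ring_aux _ _ _ _ _ hy
  have h3 := left_indep b _ h2 1
  have h4 := left_indep b _ h2 0
  simp only [Matrix.cons_val_one, Matrix.cons_val_zero] at h3 h4
  have h5 : q * yi = 0 := gm_cancel' b 0 _ h3
  have hq : q = 0 := by
    have : q = q * yi * of K (FreeGroup (Fin 2)) (FreeGroup.of 1) := by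
      have := of_mul_of_inv (K := K) (FreeGroup.of (1 : Fin 2))⁻¹
      rw [inv_inv] at this
      rw [mul_assoc, this, mul_one]
    rw [this, h5, zero_mul]
  exact ⟨by simpa [h5] using h4, hq⟩

end Pool.Agent.MP_6883a6_al.H25
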